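import Pool.Agent.Lib.MP_aa337a_pr.HdMain

set_option autoImplicit false

namespace Pool.Agent.Results.MP_aa337a_pr.HighDimDiffusive

open Pool.Agent.Lib.MP_aa337a_pr

theorem result : ∃ d0 : ℕ, ∀ d : ℕ, d0 ≤ d → ∀ β : ℝ, 0 < β → ∀ n : ℕ,
    (n : ℝ) / 2 ≤ msd β d n ∧ msd β d n ≤ 3 * (n : ℝ) / 2 :=
  HD.msd_bounds

end Pool.Agent.Results.MP_aa337a_pr.HighDimDiffusive
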