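import Pool.Agent.Lib.MP_aa337a_pr.Box

set_option autoImplicit false

namespace Pool.Agent.Results.MP_aa337a_pr.LowerExponent

open Finset Filter Topology Pool.Agent.Lib.MP_aa337a_pr

theorem density {d : ℕ} (hd : 0 < d) {β : ℝ} (hβ : 0 ≤ β) {δ : ℝ} (hδ : 0 < δ) :
    ∃ c : ℝ, 0 < c ∧ ∀ᶠ n : ℕ in atTop, (1 - δ) * ((n : ℝ) + 1) ≤
      ((range (n + 1)).filter fun k =>
        c * (n : ℝ) ^ ((2 : ℝ) / (d + 2)) ≤ msd β d k).card := by
  obtain ⟨m, hm⟩ := exists_nat_gt (6 / δ)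
  have hm0 : (0 : ℝ) < m := lt_trans (by positivity) hm
  have hm1 : 0 < m := by exact_mod_cast hm0
  have hd' : (0 : ℝ) < d := by exact_mod_cast hd
  set K : ℝ := 3 ^ (d + 2) * (d * m ^ 3) with hK
  have hK0 : 0 < K := by positivity
  refine ⟨(K ^ ((2 : ℝ) / (d + 2)))⁻¹ / 2, by positivity, ?_⟩
  filter_upwards [eventually_ge_atTop (d * m ^ 3)] with n hn
  have hex : ∃ r : ℕ, 2 * (n + 1) < (2 * r + 1) ^ (d + 2) * (d * m ^ 3) := by
    refine ⟨n + 1, ?_⟩
    have h1 : 2 * (n + 1) + 1 ≤ (2 * (n + 1) + 1) ^ (d + 2) := Nat.le_self_pow (by omega) _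
    have h2 : 0 < d * m ^ 3 := by positivity
    nlinarith
  have h0 : Nat.find hex ≠ 0 := fun h => by
    have := Nat.find_spec hex
    rw [h] at this
    simp only [mul_zero, zero_add, one_pow, one_mul] at this
    omega
  obtain ⟨r, hr⟩ : ∃ r, Nat.find hex = r + 1 := ⟨Nat.find hex - 1, by omega⟩
  have h1 := Nat.find_spec hex
  have h2 := not_lt.1 (Nat.find_min hex (m := r) (by omega))
  rw [hr] at h1
  have h3 := time_in_box (β := β) hd hβ r m n hm1 h2
  have h4 : (n : ℝ) / K ≤ ((r : ℝ) + 1) ^ (d + 2) := by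
    rw [div_le_iff₀ hK0, hK, ← mul_assoc, ← mul_pow]
    have h5 : (2 * (n + 1) : ℝ) < (2 * (r + 1) + 1) ^ (d + 2) * (d * m ^ 3) := by
      exact_mod_cast h1
    have h6 : (2 * (r + 1) + 1 : ℝ) ^ (d + 2) * (d * m ^ 3) ≤
        ((r + 1) * 3) ^ (d + 2) * (d * m ^ 3) := by
      gcongr
      have : (0 : ℝ) ≤ r := by positivity
      linarith
    have h7 : (0 : ℝ) ≤ n := by positivity
    linarith
  have h5 : (K ^ ((2 : ℝ) / (d + 2)))⁻¹ * (n : ℝ) ^ ((2 : ℝ) / (d + 2)) ≤ ((r : ℝ) + 1) ^ 2 := by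
    rw [mul_comm, ← div_eq_mul_inv, ← Real.div_rpow (by positivity) hK0.le]
    refine (Real.rpow_le_rpow (by positivity) h4 (by positivity)).trans (le_of_eq ?_)
    rw [← Real.rpow_natCast, ← Real.rpow_mul (by positivity), ← Real.rpow_natCast]
    congr 1
    push_cast
    field_simp
  set a : ℕ → ℝ := fun k => expect β d k fun x _ => if x ∈ box d r then (1 : ℝ) else 0 with ha
  have ha0 : ∀ k, 0 ≤ a k := fun k => by
    rw [← expect_const (β := β) hd k 0]
    exact expect_mono k fun x _ => by split_ifs <;> norm_num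
  have h6 : (((range (n + 1)).filter fun k => ¬ a k ≤ 1 / 2).card : ℝ) ≤ δ * (n + 1) := by
    have h7 : (((range (n + 1)).filter fun k => ¬ a k ≤ 1 / 2).card : ℝ) * (1 / 2) ≤
        ∑ k ∈ range (n + 1), a k := by
      rw [← nsmul_eq_mul]
      refine (card_nsmul_le_sum _ _ _ fun k hk => (not_le.1 (mem_filter.1 hk).2).le).trans ?_
      exact sum_le_sum_of_subset_of_nonneg (filter_subset _ _) fun k _ _ => ha0 k
    have h8 : (3 * (n + 1) / m : ℝ) ≤ δ * (n + 1) * (1 / 2) := by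
      rw [div_le_iff₀ hm0]
      rw [div_lt_iff₀ hδ] at hm
      have : (0 : ℝ) < n + 1 := by positivity
      nlinarith
    linarith
  have h7 := card_filter_add_card_filter_not (s := range (n + 1)) fun k => a k ≤ 1 / 2
  rw [card_range] at h7
  have h8 : (((range (n + 1)).filter fun k => a k ≤ 1 / 2).card : ℝ) +
      ((range (n + 1)).filter fun k => ¬ a k ≤ 1 / 2).card = n + 1 := by exact_mod_cast h7
  have h9 : ((range (n + 1)).filter fun k => a k ≤ 1 / 2).card ≤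
      ((range (n + 1)).filter fun k => (K ^ ((2 : ℝ) / (d + 2)))⁻¹ / 2 *
        (n : ℝ) ^ ((2 : ℝ) / (d + 2)) ≤ msd β d k).card := by
    refine card_le_card fun k hk => mem_filter.2 ⟨(mem_filter.1 hk).1, ?_⟩
    have h10 := (mem_filter.1 hk).2
    have h11 : ((r : ℝ) + 1) ^ 2 * (1 - a k) ≤ msd β d k := msd_ge hd r k
    have h12 : (0 : ℝ) ≤ ((r : ℝ) + 1) ^ 2 := by positivity
    nlinarith
  have h10 : (((range (n + 1)).filter fun k => a k ≤ 1 / 2).card : ℝ) ≤ _ := Nat.cast_le.2 h9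
  linarith

theorem result (d : ℕ) (hd : 1 ≤ d) (β : ℝ) (hβ : 0 < β) (δ : ℝ) (hδ : 0 < δ) :
    ∃ c : ℝ, 0 < c ∧ ∀ᶠ n : ℕ in atTop, (1 - δ) * ((n : ℝ) + 1) ≤
      ((Finset.range (n + 1)).filter fun k =>
        c * (n : ℝ) ^ ((2 : ℝ) / (d + 2)) ≤ msd β d k).card :=
  density hd hβ.le hδ

end Pool.Agent.Results.MP_aa337a_pr.LowerExponent
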