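import Pool.Agent.Lib.MP_aa337a_pr.Sb.Tail

set_option autoImplicit false

namespace Pool.Agent.Results.MP_aa337a_pr.SubBallistic

open Pool.Agent.Lib.MP_aa337a_pr

/-- The true self-avoiding walk is sub-ballistic in every dimension `d ≥ 2`: reaching distance
`v n` within `n` steps has exponentially small probability. -/
theorem result (d : ℕ) (hd : 2 ≤ d) (β : ℝ) (hβ : 0 < β) (v : ℝ) (hv : 0 < v) :
    ∃ c : ℝ, 0 < c ∧ ∀ᶠ n : ℕ in Filter.atTop,
      expect β d n (fun _ w => if ∃ y ∈ w, v * n ≤ √(∑ i, (y i : ℝ) ^ 2) then 1 else 0) ≤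
        Real.exp (-c * n) :=
  Sb.tail hd hβ.le hv

end Pool.Agent.Results.MP_aa337a_pr.SubBallistic
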